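import Pool.Agent.Lib.MP_cb7904_an.H19All
import Pool.Agent.Lib.MP_cb7904_an.H19Up

/-!
For every prime `p` and every `n ≤ p / 2`, the least value over sets `A` of `n` residues of the sum
of the absolute values of the Fourier coefficients of the indicator of `A` has order exactly
`log (n + 1)`, with absolute constants.
-/

namespace Pool.Agent.Results.MP_cb7904_an.AllSizes

open Finset Pool.Agent.Lib.MP_cb7904_an.H16

theorem result :
    ∃ c C : ℝ, 0 < c ∧ ∀ (p : ℕ) [Fact p.Prime] (n : ℕ), 2 * n ≤ p →
      (∀ A : Finset (ZMod p), A.card = n →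
        c * Real.log (n + 1) ≤ ∑ r : ZMod p, ‖(1 / p : ℂ) * ∑ x ∈ A,
          Complex.exp (-(2 * Real.pi * Complex.I * (r.val * x.val) / p))‖) ∧
      ∃ A : Finset (ZMod p), A.card = n ∧
        ∑ r : ZMod p, ‖(1 / p : ℂ) * ∑ x ∈ A,
          Complex.exp (-(2 * Real.pi * Complex.I * (r.val * x.val) / p))‖
            ≤ C * Real.log (n + 1) := by
  refine ⟨1 / 16332, 8, by norm_num, fun p hp n h => ?_⟩
  have h1 : ∀ r x : ZMod p, Complex.exp (-(2 * Real.pi * Complex.I * (r.val * x.val) / p))
      = ZMod.stdAddChar (-(r * x)) := fun r x => by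
    have := ZMod.stdAddChar_coe (N := p) (-(r.val * x.val : ℕ))
    push_cast at this
    rw [ZMod.natCast_zmod_val, ZMod.natCast_zmod_val] at this
    rw [this]
    congr 1; ring
  simp only [h1]
  refine ⟨fun A hA => ?_, upper_all h⟩
  have h2 := lower_all (F := fun x => if x ∈ A then 1 else 0) (n := n) fun k => by
    by_cases hk : k = 1
    · refine le_trans ?_ (card_le_card (s := Aᶜ) fun x hx => by simp [hk, mem_compl.mp hx])
      rw [card_compl, ZMod.card]
      omega
    · exact hA.ge.trans (card_le_card fun x hx => by simpa [hx] using Ne.symm hk)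
  have h3 : ∀ r, cz (fun x => if x ∈ A then 1 else 0) r
      = (1 / p : ℂ) * ∑ x ∈ A, ZMod.stdAddChar (-(r * x)) := fun r => by
    simp [cz]
  simp only [h3] at h2
  linarith

end Pool.Agent.Results.MP_cb7904_an.AllSizes
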