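import Pool.Agent.Lib.MP_cb7904_an.Id.Main

/-!
An integer valued function on a finite cyclic group is a signed sum of indicators of cosets, the
number of terms being at most exponential in the sum of the absolute values of its Fourier
coefficients.
-/

namespace Pool.Agent.Results.MP_cb7904_an.CyclicIdempotent

open Finset Pool.Agent.Lib.MP_cb7904_an.Id

theorem result :
    ∃ C : ℝ, ∀ (N : ℕ) [NeZero N] (f : ZMod N → ℤ),
      ∃ (T : ℕ) (ε : Fin T → ℤ) (d a : Fin T → ZMod N),
        (T : ℝ) ≤ Real.exp (C * ∑ r : ZMod N, ‖(1 / N : ℂ) * ∑ x : ZMod N, (f x : ℂ) *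
          Complex.exp (-(2 * Real.pi * Complex.I * (r.val * x.val) / N))‖) ∧
        (∀ j, ε j = 1 ∨ ε j = -1) ∧
        ∀ x, f x = ∑ j, ε j * Set.indicator {y | d j ∣ y - a j} 1 x := by
  obtain ⟨C, hC⟩ := main
  refine ⟨C, fun N _ f => ?_⟩
  have h1 : ∀ r x : ZMod N, Complex.exp (-(2 * Real.pi * Complex.I * (r.val * x.val) / N))
      = ZMod.stdAddChar (-(r * x)) := fun r x => by
    have := ZMod.stdAddChar_coe (N := N) (-(r.val * x.val : ℕ))
    push_cast at this
    rw [ZMod.natCast_zmod_val, ZMod.natCast_zmod_val] at this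
    rw [this]
    congr 1; ring
  simp only [h1]
  obtain ⟨T, ε, d, a, h2, h3, h4⟩ := (hC N f).final
  refine ⟨T, ε, d, a, h2, h3, fun x => (h4 x).trans (sum_congr rfl fun j _ => ?_)⟩
  by_cases h : d j ∣ x - a j <;> simp [h]

end Pool.Agent.Results.MP_cb7904_an.CyclicIdempotent
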